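import Pool.Agent.Helper227.TD.Exist
import Pool.Agent.Helper227.VL

set_option autoImplicit false

namespace Pool.Agent.Y785.TD

open Encodable MeasureTheory
open scoped ENNReal
open Pool.Agent Pool.Agent.Helper227

/-- the tail of a sequence -/
def tl (i : ℕ) (Z : ℕ → Bool) : ℕ → Bool := fun n => Z (n + i)

theorem mlr_of_mlrandom {X : ℕ → Bool} (h : MLRandom X) : MLR (fun _ => false) X := by
  rintro U ⟨⟨W, hW, hU⟩, hm⟩ hX
  rw [ceIn_iff] at hW
  obtain ⟨E, hE, -, eE⟩ := hW
  have hrep : ∀ s, pre (fun _ => false) s = (List.range s).map (fun _ => false) := fun s => rfl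
  have hS : S1 fun x : ℕ × List Bool => Nat.pair x.1 (encode x.2) ∈ W := by
    have h1 : S1 fun x : ℕ × List Bool => ∃ s : ℕ,
        E ((List.range s).map (fun _ => false), Nat.pair x.1 (encode x.2)) := by
      refine S1.ex (hE.comp ?_)
      have h5 : Primrec fun n : ℕ => (List.range n).map (fun _ => false) :=
        Primrec.list_map Primrec.list_range (Primrec.const false).to₂
      exact (h5.comp Primrec.snd).pair (Primrec₂.natPair.comp (Primrec.fst.comp Primrec.fst)
        (Primrec.encode.comp (Primrec.snd.comp Primrec.fst)))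
    refine h1.of_eq fun x => ?_
    rw [eE]
    exact Iff.rfl
  obtain ⟨n, hn⟩ := h {x | Nat.pair x.1 (encode x.2) ∈ W} hS.re (fun n => by
    have := hm n
    rw [hU n] at this
    exact this)
  have h2 := Set.mem_iInter.1 hX n
  rw [hU n] at h2
  simp only [Set.mem_iUnion, Set.mem_ofPred_eq, exists_prop] at h2
  obtain ⟨σ, h3, h4⟩ := h2
  exact hn σ h3 h4

theorem mlrandom_tail {X : ℕ → Bool} (h : MLRandom X) (i : ℕ) : MLRandom (tl i X) := by
  refine MLRandom.of_MLR (A := fun _ => false) ?_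
  exact Pool.Agent.Helper227.MLR.comp (mlr_of_mlrandom h) (j := fun n => n + i)
    (fun a b hab => by simpa using hab)
    (Primrec.nat_add.comp Primrec.id (Primrec.const i))

/-- sets of sequences starting with `ρ` followed by `n` members of `D` -/
def VS (D : Set (List Bool)) : ℕ → List Bool → Set (ℕ → Bool)
  | 0, ρ => cyl ρ
  | n + 1, ρ => ⋃ η : D, VS D n (ρ ++ η.1)

theorem VS_le {D : Set (List Bool)} {r : ℝ≥0∞} (hr : ∑' η : D, (1 / 2 : ℝ≥0∞) ^ η.1.length ≤ r)
    (n : ℕ) (ρ : List Bool) : lam (VS D n ρ) ≤ r ^ n * (1 / 2) ^ ρ.length := by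
  induction n generalizing ρ with
  | zero => simp [VS, lam_cyl]
  | succ n ih =>
    calc lam (VS D (n + 1) ρ) ≤ ∑' η : D, lam (VS D n (ρ ++ η.1)) := measure_iUnion_le _
      _ ≤ ∑' η : D, (r ^ n * (1 / 2) ^ ρ.length) * (1 / 2) ^ η.1.length := by
          refine ENNReal.tsum_le_tsum fun η => (ih _).trans (le_of_eq ?_)
          rw [List.length_append, pow_add, mul_assoc]
      _ = (r ^ n * (1 / 2) ^ ρ.length) * ∑' η : D, (1 / 2) ^ η.1.length := ENNReal.tsum_mul_left
      _ ≤ (r ^ n * (1 / 2) ^ ρ.length) * r := by gcongr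
      _ = r ^ (n + 1) * (1 / 2) ^ ρ.length := by rw [pow_succ]; ring

theorem cyl_sub_VS {D : Set (List Bool)} (L : List (List Bool)) (ρ : List Bool)
    (hL : ∀ η ∈ L, η ∈ D) : cyl (ρ ++ L.flatten) ⊆ VS D L.length ρ := by
  induction L generalizing ρ with
  | nil => simp [VS]
  | cons η L ih =>
    intro X hX
    rw [List.flatten_cons, ← List.append_assoc] at hX
    have h1 := ih (ρ ++ η) (fun η' h => hL η' (List.mem_cons_of_mem _ h)) hX
    exact Set.mem_iUnion.2 ⟨⟨η, hL η List.mem_cons_self⟩, h1⟩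

/-- Kučera's lemma: every random sequence has a tail in every effectively closed class of positive
measure. -/
theorem kucera_tail {D : List Bool → Prop} (hD : S1 D) (hlt : lam {X | ∃ t, D (pre X t)} < 1)
    {Z : ℕ → Bool} (hZ : MLRandom Z) : ∃ i, ∀ t, ¬ D (pre (tl i Z) t) := by
  classical
  obtain ⟨q, hq, hm, he⟩ := hD
  -- decidable version
  obtain ⟨D1, hD1⟩ : ∃ D1 : List Bool → Prop, D1 = fun η => ∃ t < η.length + 1,
    q (η.take t) η.length := ⟨_, rfl⟩
  have pD1 : PrimrecPred D1 := by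
    rw [hD1]
    refine PP.ex_lt (α := List Bool) (f := fun η => η.length + 1)
      (p := fun η t => q (η.take t) η.length) ?_ (Primrec.succ.comp Primrec.list_length)
    exact hq.comp (Primrec.list_take.comp Primrec.snd Primrec.fst)
      (Primrec.list_length.comp Primrec.fst)
  have hU : ∀ X : ℕ → Bool, (∃ t, D (pre X t)) ↔ ∃ t, D1 (pre X t) := by
    intro X
    rw [hD1]
    constructor
    · rintro ⟨t, ht⟩
      obtain ⟨n, hn⟩ := (he _).1 ht
      refine ⟨t + n, t, by rw [length_pre]; omega, ?_⟩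
      rw [take_pre _ _ _ (by omega), length_pre]
      exact hm _ _ _ (by omega) hn
    · rintro ⟨s, t, ht, hn⟩
      rw [length_pre] at ht hn
      rw [take_pre _ _ _ (by omega)] at hn
      exact ⟨t, (he _).2 ⟨_, hn⟩⟩
  obtain ⟨Dm, hDm⟩ : ∃ Dm : Set (List Bool), Dm = {η | D1 η ∧ ∀ k < η.length, ¬ D1 (η.take k)} :=
    ⟨_, rfl⟩
  have pDm : PrimrecPred fun η : List Bool => η ∈ Dm := by
    rw [hDm]
    refine PrimrecPred.and pD1 ?_
    refine PP.all_lt (α := List Bool) (f := fun η => η.length)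
      (p := fun η k => ¬ D1 (η.take k)) ?_ Primrec.list_length
    exact (pD1.comp (Primrec.list_take.comp Primrec.snd Primrec.fst)).not
  have hmem : ∀ X : ℕ → Bool, (∃ t, D (pre X t)) → ∃ t, pre X t ∈ Dm := by
    intro X hX
    have h1 := (hU X).1 hX
    refine ⟨Nat.find h1, ?_⟩
    rw [hDm]
    refine ⟨Nat.find_spec h1, fun k hk => ?_⟩
    rw [length_pre] at hk
    rw [take_pre _ _ _ hk.le]
    exact Nat.find_min h1 hk
  -- the weight of the minimal strings
  obtain ⟨r, hr⟩ : ∃ r, r = lam {X | ∃ t, D (pre X t)} := ⟨_, rfl⟩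
  rw [← hr] at hlt
  have hsum : ∑' η : Dm, (1 / 2 : ℝ≥0∞) ^ η.1.length ≤ r := by
    have hdis : Pairwise (Function.onFun Disjoint fun η : Dm => cyl η.1) := by
      rintro ⟨η, hη⟩ ⟨η', hη'⟩ hne
      rw [hDm] at hη hη'
      change Disjoint (cyl η) (cyl η')
      rw [Set.disjoint_left]
      intro X h1 h2
      rw [mem_cyl_iff] at h1 h2
      apply hne
      apply Subtype.ext
      change η = η'
      rcases lt_trichotomy η.length η'.length with h | h | h
      · exfalso
        refine hη'.2 η.length h ?_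
        rw [← h2, take_pre _ _ _ h.le, h1]
        exact hη.1
      · rw [← h1, ← h2, h]
      · exfalso
        refine hη.2 η'.length h ?_
        rw [← h1, take_pre _ _ _ h.le, h2]
        exact hη'.1
    have h1 : lam (⋃ η : Dm, cyl η.1) = ∑' η : Dm, lam (cyl η.1) :=
      measure_iUnion hdis (fun η => measurableSet_cyl _)
    have h2 : ∑' η : Dm, (1 / 2 : ℝ≥0∞) ^ η.1.length = ∑' η : Dm, lam (cyl η.1) :=
      tsum_congr fun η => (lam_cyl _).symm
    rw [h2, ← h1, hr]
    refine measure_mono (Set.iUnion_subset ?_)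
    rintro ⟨η, hη⟩ X hX
    change X ∈ cyl η at hX
    rw [mem_cyl_iff] at hX
    rw [hDm] at hη
    refine (hU X).2 ⟨η.length, ?_⟩
    rw [hX]
    exact hη.1
  obtain ⟨K, hK⟩ : ∃ K : ℕ, r ^ K < 1 / 2 :=
    ((ENNReal.tendsto_pow_atTop_nhds_zero_of_lt_one hlt).eventually
      (gt_mem_nhds (by simp : (0 : ℝ≥0∞) < 1 / 2))).exists
  -- the test
  have hS : S1 fun x : ℕ × List Bool => ∃ L : List (List Bool),
      (L.length = K * x.1 ∧ (∀ η ∈ L, η ∈ Dm)) ∧ L.flatten = x.2 := by
    refine S1.ex (S1.of_prim (PrimrecPred.and (PrimrecPred.and ?_ ?_) ?_))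
    · exact Primrec.eq.comp (Primrec.list_length.comp Primrec.snd)
        (Primrec.nat_mul.comp (Primrec.const K) (Primrec.fst.comp Primrec.fst))
    · exact PP.all_mem (α := (ℕ × List Bool) × List (List Bool)) (f := fun x => x.2)
        (p := fun _ η => η ∈ Dm) (pDm.comp Primrec.snd) Primrec.snd
    · exact Primrec.eq.comp (Primrec.list_flatten.comp Primrec.snd)
        (Primrec.snd.comp Primrec.fst)
  obtain ⟨n, hn⟩ := hZ {x | ∃ L : List (List Bool),
      (L.length = K * x.1 ∧ (∀ η ∈ L, η ∈ Dm)) ∧ L.flatten = x.2} hS.re (fun n => by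
    refine (measure_mono (t := VS Dm (K * n) []) ?_).trans ((VS_le hsum _ _).trans ?_)
    · intro X hX
      simp only [Set.mem_iUnion, Set.mem_ofPred_eq, exists_prop] at hX
      obtain ⟨σ, ⟨L, ⟨h1, h2⟩, h3⟩, h4⟩ := hX
      have h5 := cyl_sub_VS L [] h2 (show X ∈ cyl ([] ++ L.flatten) by
        rw [List.nil_append, h3]; exact h4)
      rwa [h1] at h5
    · rw [List.length_nil, pow_zero, mul_one, pow_mul]
      exact pow_le_pow_left' hK.le n)
  by_contra hcon
  push Not at hcon
  have hbuild : ∀ k i, ∃ L : List (List Bool), L.length = k ∧ (∀ η ∈ L, η ∈ Dm) ∧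
      pre (tl i Z) L.flatten.length = L.flatten := by
    intro k
    induction k with
    | zero => exact fun i => ⟨[], rfl, by simp, by simp [pre]⟩
    | succ k ih =>
      intro i
      obtain ⟨t, ht⟩ := hmem _ (hcon i)
      obtain ⟨L, h1, h2, h3⟩ := ih (i + t)
      refine ⟨pre (tl i Z) t :: L, by simp [h1], ?_, ?_⟩
      · intro η hη
        rcases List.mem_cons.1 hη with rfl | h
        · exact ht
        · exact h2 η h
      · rw [List.flatten_cons, List.length_append, length_pre]
        conv_rhs => rw [← h3]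
        unfold pre
        rw [List.range_add, List.map_append, List.map_map]
        congr 1
        refine List.map_congr_left fun a _ => ?_
        change Z (t + a + i) = Z (a + (i + t))
        congr 1
        omega
  obtain ⟨L, h1, h2, h3⟩ := hbuild (K * n) 0
  refine hn L.flatten ⟨L, ⟨h1, h2⟩, rfl⟩ ?_
  rw [mem_cyl_iff]
  exact h3

end Pool.Agent.Y785.TD
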