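import Pool.Agent.Y785.TD.Kucera

set_option autoImplicit false

namespace Pool.Agent.Y785.TD

open Encodable MeasureTheory
open scoped ENNReal
open Pool.Agent Pool.Agent.Helper227

/-- finding a level of finiteness -/
theorem exists_level {S : Set (ℕ → Bool)} (hS : 0 < lam S) {f : (ℕ → Bool) → ℝ≥0∞}
    (hf : ∀ᵐ X ∂lam, f X ≠ ∞) : ∃ N : ℕ, 0 < lam (S ∩ {X | f X ≤ 2 ^ N}) := by
  by_contra hcon
  push Not at hcon
  have h0 : lam (⋃ N : ℕ, S ∩ {X | f X ≤ 2 ^ N}) = 0 :=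
    measure_iUnion_null fun N => le_antisymm (hcon N) zero_le
  rw [ae_iff] at hf
  refine hS.ne' (measure_mono_null (t := (⋃ N : ℕ, S ∩ {X | f X ≤ 2 ^ N}) ∪ {X | ¬ f X ≠ ∞}) ?_
    (measure_union_null h0 hf))
  intro X hX
  by_cases h : f X = ∞
  · exact Or.inr (by simpa using h)
  · left
    obtain ⟨N, hN⟩ := ENNReal.exists_nat_gt h
    refine Set.mem_iUnion.2 ⟨N, hX, hN.le.trans ?_⟩
    have : N ≤ 2 ^ N := Nat.lt_two_pow_self.le
    exact_mod_cast this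

/-- effectively closed classes given by a cylinder and upper bounds for two lower semicomputable
functions -/
theorem exists_class {f g : (ℕ → Bool) → ℝ≥0∞} (hf : LowerSemi f) (hg : LowerSemi g)
    (σ : List Bool) (p q p' q' : ℕ)
    (hpos : 0 < lam (cyl σ ∩ {X | f X ≤ (p : ℝ≥0∞) / 2 ^ q} ∩ {X | g X ≤ (p' : ℝ≥0∞) / 2 ^ q'})) :
    ∃ D : List Bool → Prop, S1 D ∧ lam {X | ∃ t, D (pre X t)} < 1 ∧
      ∀ X, (∀ t, ¬ D (pre X t)) → X ∈ cyl σ ∧ f X ≤ (p : ℝ≥0∞) / 2 ^ q ∧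
        g X ≤ (p' : ℝ≥0∞) / 2 ^ q' := by
  obtain ⟨P, hP, eP⟩ := hf.s1
  obtain ⟨Q, hQ, eQ⟩ := hg.s1
  have hD : S1 fun η : List Bool => (σ.length ≤ η.length ∧ ¬ η.take σ.length = σ) ∨
      (P (p, q) η ∨ Q (p', q') η) := by
    refine S1.or (S1.of_prim (PrimrecPred.and ?_ (PrimrecPred.not ?_))) (S1.or ?_ ?_)
    · exact Primrec.nat_le.comp (Primrec.const _) Primrec.list_length
    · exact Primrec.eq.comp (Primrec.list_take.comp (Primrec.const _) Primrec.id) (Primrec.const _)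
    · exact hP.comp ((Primrec.const (p, q)).pair Primrec.id)
    · exact hQ.comp ((Primrec.const (p', q')).pair Primrec.id)
  have hX : ∀ X : ℕ → Bool, (∃ t, (σ.length ≤ (pre X t).length ∧ ¬ (pre X t).take σ.length = σ) ∨
      (P (p, q) (pre X t) ∨ Q (p', q') (pre X t))) ↔
      X ∉ cyl σ ∩ {X | f X ≤ (p : ℝ≥0∞) / 2 ^ q} ∩ {X | g X ≤ (p' : ℝ≥0∞) / 2 ^ q'} := by
    intro X
    constructor
    · rintro ⟨t, h | h | h⟩ ⟨⟨h1, h2⟩, h3⟩
      · rw [length_pre] at h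
        rw [mem_cyl_iff] at h1
        apply h.2
        rw [take_pre _ _ _ h.1, h1]
      · exact absurd ((eP p q X).2 ⟨t, h⟩) (not_lt.2 h2)
      · exact absurd ((eQ p' q' X).2 ⟨t, h⟩) (not_lt.2 h3)
    · intro h
      by_cases h1 : X ∈ cyl σ
      · by_cases h2 : f X ≤ (p : ℝ≥0∞) / 2 ^ q
        · have h3 : ¬ g X ≤ (p' : ℝ≥0∞) / 2 ^ q' := fun h3 => h ⟨⟨h1, h2⟩, h3⟩
          obtain ⟨t, ht⟩ := (eQ p' q' X).1 (not_le.1 h3)
          exact ⟨t, Or.inr (Or.inr ht)⟩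
        · obtain ⟨t, ht⟩ := (eP p q X).1 (not_le.1 h2)
          exact ⟨t, Or.inr (Or.inl ht)⟩
      · refine ⟨σ.length, Or.inl ⟨by rw [length_pre], fun h2 => h1 ?_⟩⟩
        rw [take_pre _ _ _ le_rfl] at h2
        exact mem_cyl_iff.2 h2
  refine ⟨_, hD, ?_, ?_⟩
  · obtain ⟨G, hG⟩ : ∃ G, G = cyl σ ∩ {X | f X ≤ (p : ℝ≥0∞) / 2 ^ q} ∩
        {X | g X ≤ (p' : ℝ≥0∞) / 2 ^ q'} := ⟨_, rfl⟩
    have hGm : MeasurableSet G := by
      rw [hG]
      exact ((measurableSet_cyl σ).inter (measurableSet_le hf.measurable measurable_const)).inter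
        (measurableSet_le hg.measurable measurable_const)
    have hset : {X : ℕ → Bool | ∃ t, (σ.length ≤ (pre X t).length ∧
        ¬ (pre X t).take σ.length = σ) ∨ (P (p, q) (pre X t) ∨ Q (p', q') (pre X t))} = Gᶜ := by
      ext X
      rw [Set.mem_ofPred_eq, hX X, ← hG]
      exact Iff.rfl
    rw [← hG] at hpos
    rw [hset, prob_compl_eq_one_sub hGm]
    exact ENNReal.sub_lt_self ENNReal.one_ne_top one_ne_zero hpos.ne'
  · intro X h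
    have h1 := (not_congr (hX X)).1 (by
      rintro ⟨t, ht⟩
      exact h t ht)
    rw [not_not] at h1
    exact ⟨h1.1.1, h1.1.2, h1.2⟩

theorem td_sets {t p : (ℕ → Bool) → ℝ≥0∞} (ht : IsUnivE t) (hp : IsUnivP p) (c : ℕ) :
    ∃ D1 D2 : List Bool → Prop, S1 D1 ∧ S1 D2 ∧ lam {X | ∃ s, D1 (pre X s)} < 1 ∧
      lam {X | ∃ s, D2 (pre X s)} < 1 ∧
      ∀ X Y : ℕ → Bool, (∀ s, ¬ D1 (pre X s)) → (∀ s, ¬ D2 (pre Y s)) →
      (t X ≠ 0 ∧ t X ≠ ∞ ∧ t Y ≠ 0 ∧ t Y ≠ ∞ ∧ p X ≠ 0 ∧ p X ≠ ∞ ∧ p Y ≠ 0 ∧ p Y ≠ ∞) ∧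
      defi t Y + c ≤ defi t X ∧ defi p X + c ≤ defi p Y := by
  obtain ⟨a, ha⟩ := exists_bound ht
  obtain ⟨l, hl1, hl2, hl3⟩ := exists_lv ht ha
  obtain ⟨e0, he0⟩ := mv_lower ht
  obtain ⟨C3, hC30, hC3⟩ := exists_C3 ht hl1 hl3
  obtain ⟨C1, hC10, hC1⟩ := exists_C1 hp
  obtain ⟨c3, hc3⟩ := ennreal_le_two_pow (x := ENNReal.ofReal C3) (by simp)
  obtain ⟨c1, hc1⟩ := ennreal_le_two_pow (x := ENNReal.ofReal C1) (by simp)
  -- constants
  obtain ⟨b, hb⟩ : ∃ b, b = (c3 + a + 1 + c) + (a + e0) := ⟨_, rfl⟩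
  obtain ⟨d, hd⟩ : ∃ d, d = c1 + c := ⟨_, rfl⟩
  have hlb : ∀ m, l m ≤ m + b := by
    intro m
    have h1 := (he0 m).trans (hl2 m)
    have h2 : ((1 : ℕ) : ℝ≥0∞) / 2 ^ (m + e0) ≤ ((2 ^ a : ℕ) : ℝ≥0∞) / 2 ^ l m := by
      push_cast; exact h1
    rw [dyadic_le_iff, one_mul, ← pow_add] at h2
    have h3 := (Nat.pow_le_pow_iff_right (by norm_num)).1 h2
    omega
  obtain ⟨m, hm, hlt⟩ := exists_m ht hp.1 hl1 hl2 hl3 b d hlb
  obtain ⟨x, hx⟩ : ∃ x, x = m + b - l m := ⟨_, rfl⟩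
  rw [← hx] at hlt
  -- the class in `A x`
  have hpos1 : 0 < lam (cyl (az x (l x)) \ {X | (2 : ℝ≥0∞) ^ (m - d) < p X}) := by
    have h1 := measure_inter_add_sdiff (μ := lam) (cyl (az x (l x)))
      (t := {X | (2 : ℝ≥0∞) ^ (m - d) < p X}) (measurableSet_lt measurable_const hp.1.1.measurable)
    rw [Set.inter_comm] at h1
    by_contra h2
    have h3 : lam (cyl (az x (l x)) \ {X | (2 : ℝ≥0∞) ^ (m - d) < p X}) = 0 := by
      simpa using h2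
    rw [h3, add_zero] at h1
    exact hlt.ne h1
  obtain ⟨N1, hN1⟩ := exists_level hpos1 ht.1.ae_ne_top
  obtain ⟨D1, sD1, mD1, eD1⟩ := exists_class hp.1.1 ht.1.1 (az x (l x)) (2 ^ (m - d)) 0 (2 ^ N1) 0
    (by
      refine lt_of_lt_of_le hN1 (measure_mono ?_)
      rintro X ⟨⟨h1, h2⟩, h3⟩
      refine ⟨⟨h1, ?_⟩, ?_⟩
      · simp only [Set.mem_ofPred_eq, not_lt] at h2 ⊢
        simpa using h2
      · simp only [Set.mem_ofPred_eq] at h3 ⊢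
        simpa using h3)
  -- the class in `[0^m 1]`
  have hpos2 : 0 < lam (cyl (zs m) \ {X | qv t m < t X}) := by
    have h1 := measure_inter_add_sdiff (μ := lam) (cyl (zs m))
      (t := {X | qv t m < t X}) (measurableSet_lt measurable_const ht.1.1.measurable)
    rw [Set.inter_comm] at h1
    by_contra h2
    have h3 : lam (cyl (zs m) \ {X | qv t m < t X}) = 0 := by simpa using h2
    rw [h3, add_zero, lam_zs] at h1
    have h4 := lam_gt_qv (t := t) m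
    rw [h1, half_pow_eq] at h4
    have h5 : (1 : ℝ≥0∞) / 2 ^ (m + 2) = ((1 : ℕ) : ℝ≥0∞) / 2 ^ (m + 2) := by simp
    rw [h5, dyadic_le_iff, one_mul, one_mul] at h4
    have h6 := (Nat.pow_le_pow_iff_right (by norm_num)).1 h4
    omega
  obtain ⟨N2, hN2⟩ := exists_level hpos2 hp.1.ae_ne_top
  have hqv : qv t m ≤ ((2 ^ (m + 1 + a) : ℕ) : ℝ≥0∞) / 2 ^ l m := by
    have h1 := hl2 m
    unfold mv at h1
    rw [ENNReal.div_le_iff_le_mul (Or.inl (by positivity)) (Or.inl (by finiteness))] at h1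
    refine h1.trans (le_of_eq ?_)
    push_cast
    rw [pow_add (2 : ℝ≥0∞) (m + 1) a, mul_comm ((2 : ℝ≥0∞) ^ (m + 1)) (2 ^ a),
      ENNReal.mul_div_right_comm]
  obtain ⟨D2, sD2, mD2, eD2⟩ := exists_class ht.1.1 hp.1.1 (zs m) (2 ^ (m + 1 + a)) (l m)
    (2 ^ N2) 0 (by
      refine lt_of_lt_of_le hN2 (measure_mono ?_)
      rintro X ⟨⟨h1, h2⟩, h3⟩
      refine ⟨⟨h1, ?_⟩, ?_⟩
      · simp only [Set.mem_ofPred_eq, not_lt] at h2 ⊢
        exact h2.trans hqv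
      · simp only [Set.mem_ofPred_eq] at h3 ⊢
        simpa using h3)
  refine ⟨D1, D2, sD1, sD2, mD1, mD2, fun X Y hXD hYD => ?_⟩
  obtain ⟨hXc, hX2', hXt'⟩ := eD1 X hXD
  obtain ⟨hYc, hY3', hYp'⟩ := eD2 Y hYD
  have hXt : t X ≠ ∞ := ne_top_of_le_ne_top (by finiteness) hXt'
  have hYp : p Y ≠ ∞ := ne_top_of_le_ne_top (by finiteness) hYp'
  have hXp : p X ≠ ∞ := ne_top_of_le_ne_top (by finiteness) hX2'
  have hYt : t Y ≠ ∞ := ne_top_of_le_ne_top (by finiteness) hY3'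
  -- inequalities
  have hX1 : (2 : ℝ≥0∞) ^ x ≤ 2 ^ c3 * t X := (hC3 x X hXc).trans (mul_le_mul' hc3 le_rfl)
  have hX2 : p X ≤ 2 ^ (m - d) := by simpa using hX2'
  have hX3 : (2 : ℝ≥0∞) ^ x ≤ 2 ^ c1 * p X :=
    (hC1 x X (az_cyl_zs _ _ hXc)).trans (mul_le_mul' hc1 le_rfl)
  have hY1 : (2 : ℝ≥0∞) ^ m ≤ 2 ^ c1 * p Y := (hC1 m Y hYc).trans (mul_le_mul' hc1 le_rfl)
  have hY3 : t Y ≤ 2 ^ (m + 1) * (2 ^ a / 2 ^ l m) := by
    refine hY3'.trans (le_of_eq ?_)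
    push_cast
    rw [pow_add, mul_div_assoc]
  have hpow0 : ∀ n : ℕ, (2 : ℝ≥0∞) ^ n ≠ 0 := fun n => by positivity
  have hpowt : ∀ n : ℕ, (2 : ℝ≥0∞) ^ n ≠ ∞ := fun n => by finiteness
  have hX0 : t X ≠ 0 := by
    intro h; rw [h, mul_zero] at hX1; exact hpow0 _ (le_antisymm hX1 zero_le)
  have hpX0 : p X ≠ 0 := by
    intro h; rw [h, mul_zero] at hX3; exact hpow0 _ (le_antisymm hX3 zero_le)
  have hpY0 : p Y ≠ 0 := by
    intro h; rw [h, mul_zero] at hY1; exact hpow0 _ (le_antisymm hY1 zero_le)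
  have hY0 : t Y ≠ 0 := by
    have h1 : IsETest fun _ => (1 : ℝ≥0∞) := by
      refine ⟨lowerSemi_of_s1 (E := fun x => x.2.1 = 1 ∧ x.2.2 = 0) (S1.of_prim
        (PrimrecPred.and (Primrec.eq.comp (Primrec.fst.comp Primrec.snd) (Primrec.const 1))
          (Primrec.eq.comp (Primrec.snd.comp Primrec.snd) (Primrec.const 0)))) fun X => ?_, ?_⟩
      · apply le_antisymm
        · refine le_iSup_of_le 0 (le_iSup_of_le 1 (le_iSup_of_le 0 (le_iSup_of_le ⟨rfl, rfl⟩ ?_)))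
          simp
        · refine iSup_le fun n => iSup_le fun p => iSup_le fun q => iSup_le ?_
          rintro ⟨h1, h2⟩
          simp only at h1 h2
          rw [h1, h2]
          simp
      · simp
    obtain ⟨C, hC⟩ := ht.2 _ h1
    intro h
    have h2 := hC Y
    rw [h, mul_zero] at h2
    simp at h2
  refine ⟨⟨hX0, hXt, hY0, hYt, hpX0, hXp, hpY0, hYp⟩, ?_, ?_⟩
  · refine defi_ge hXt hY0 hYt ?_
    -- `2^c * t Y ≤ t X`
    have h1 : (2 : ℝ≥0∞) ^ c3 * (2 ^ c * t Y) ≤ 2 ^ c3 * t X := by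
      refine le_trans ?_ hX1
      calc (2 : ℝ≥0∞) ^ c3 * (2 ^ c * t Y) ≤ 2 ^ c3 * (2 ^ c * (2 ^ (m + 1) * (2 ^ a / 2 ^ l m))) := by
            gcongr
        _ = 2 ^ (c3 + c + (m + 1) + a) / 2 ^ l m := by
            rw [← mul_assoc, ← mul_assoc, ← mul_div_assoc, ← pow_add, ← pow_add, ← pow_add]
        _ ≤ 2 ^ x := by
            refine ENNReal.div_le_of_le_mul ?_
            rw [← pow_add]
            have := hlb m
            exact pow_le_pow_right₀ (by norm_num) (by omega)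
    exact (ENNReal.mul_le_mul_iff_right (hpow0 _) (hpowt _)).1 h1
  · refine defi_ge hYp hpX0 hXp ?_
    have h1 : (2 : ℝ≥0∞) ^ c1 * (2 ^ c * p X) ≤ 2 ^ c1 * p Y := by
      refine le_trans ?_ hY1
      calc (2 : ℝ≥0∞) ^ c1 * (2 ^ c * p X) ≤ 2 ^ c1 * (2 ^ c * 2 ^ (m - d)) := by gcongr
        _ = 2 ^ m := by
            rw [← mul_assoc, ← pow_add, ← pow_add]
            congr 1
            omega
    exact (ENNReal.mul_le_mul_iff_right (hpow0 _) (hpowt _)).1 h1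

end Pool.Agent.Y785.TD
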